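import Pool.Agent.helper38.VA.Spec

/-!
# Row va:HSU, Heisenberg groups in nilpotent groups
-/

set_option autoImplicit false

namespace Pool.Agent.VA

open Matrix Module Pool.Agent.PR Pool.Agent.H48SL
open scoped commutatorElement

theorem HSU : HSU_stmt := by
  intro G _ U hnil htf hxy
  obtain ⟨x₀, hx₀, y₀, hy₀, hne₀⟩ := hxy
  have hnab : ¬ ∀ a b : U, a * b = b * a := by
    intro hcomm
    exact hne₀ (congrArg Subtype.val (hcomm ⟨x₀, hx₀⟩ ⟨y₀, hy₀⟩))
  obtain ⟨x, hx2, hx1⟩ : ∃ x : U, x ∈ Subgroup.upperCentralSeries U 2 ∧ x ∉ Subgroup.center U := by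
    by_contra hne
    push Not at hne
    have hall : ∀ k : ℕ, Subgroup.upperCentralSeries U (k + 1) ≤ Subgroup.center U := by
      intro k
      induction k with
      | zero => rw [zero_add, Subgroup.upperCentralSeries_one]
      | succ k ih =>
        intro a ha
        rw [Subgroup.mem_upperCentralSeries_succ_iff] at ha
        refine hne a ?_
        rw [Subgroup.mem_upperCentralSeries_succ_iff]
        intro y
        rw [Subgroup.upperCentralSeries_one]
        exact ih (ha y)
    obtain ⟨c, hc⟩ := hnil.nilpotent'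
    have htop : (⊤ : Subgroup U) ≤ Subgroup.center U := by
      rw [← hc]
      exact (Subgroup.upperCentralSeries_mono U (Nat.le_succ c)).trans (hall c)
    exact hnab fun a b => ((Subgroup.mem_center_iff.1 (htop (Subgroup.mem_top a))) b).symm
  rw [Subgroup.mem_center_iff] at hx1
  push Not at hx1
  obtain ⟨y, hy⟩ := hx1
  have hz : ⁅x, y⁆ ∈ Subgroup.center U := by
    rw [← Subgroup.upperCentralSeries_one]
    exact (Subgroup.mem_upperCentralSeries_succ_iff.1 hx2) y
  have hz' : ∀ g : U, g * ⁅x, y⁆ = ⁅x, y⁆ * g := Subgroup.mem_center_iff.1 hz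
  have hne : ⁅x, y⁆ ≠ 1 := by
    intro h
    rw [commutatorElement_eq_one_iff_mul_comm] at h
    exact hy h.symm
  refine ⟨x.1, x.2, y.1, y.2, (⁅x, y⁆ : U).1, (⁅x, y⁆ : U).2, congrArg Subtype.val (hz' x),
    congrArg Subtype.val (hz' y), ?_, htf _ (⁅x, y⁆ : U).2 (fun h => hne (Subtype.ext h))⟩
  have h1 : x * y = ⁅x, y⁆ * (y * x) := by
    rw [commutatorElement_def]
    group
  exact congrArg Subtype.val h1

end Pool.Agent.VA
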